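import Mathlib
import Pool.Agent.TH796.AL.Stms
import Pool.Agent.TH932.S2.Mov

set_option autoImplicit false

namespace Pool.Agent.TH656.AL

open Filter Topology Pool.Agent.TH932.Abs Pool.Agent.TH932.Germs Pool.Agent.TH932.Chi
  Pool.Agent.TH796.AL

/-! ## the exchange over a field -/

lemma extendF {F G : Type*} [Field F] [AddCommGroup G] [Module F G] {α β : Type*} [Fintype α]
    [Fintype β] (u : α → G) (y : β → G) (hu : LinearIndependent F u)
    (hy : LinearIndependent F y)
    (hm : ∀ i, u i ∈ Submodule.span F (Set.range y)) (e : ℕ)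
    (he : e = Fintype.card β - Fintype.card α) :
    ∃ g : Fin e → G, (∀ k, g k ∈ Set.range y) ∧
      LinearIndependent F (Sum.elim u g) ∧
      Fintype.card α ≤ Fintype.card β := by
  classical
  have hus : LinearIndepOn F id (Set.range u) := hu.linearIndepOn_id
  obtain ⟨B, hBt, hsB, htB, hB⟩ := exists_linearIndepOn_id_extension hus
    (Set.subset_union_left : Set.range u ⊆ Set.range u ∪ Set.range y)
  have hfin : B.Finite := ((Set.finite_range u).union (Set.finite_range y)).subset hBt
  have : Fintype B := hfin.fintype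
  have hspan : Submodule.span F B = Submodule.span F (Set.range y) := by
    apply le_antisymm
    · rw [Submodule.span_le]
      intro x hx
      rcases hBt hx with h | h
      · obtain ⟨i, rfl⟩ := h
        exact hm i
      · exact Submodule.subset_span h
    · rw [Submodule.span_le]
      exact Set.subset_union_right.trans htB
  have hcard : B.toFinset.card = Fintype.card β := by
    rw [← finrank_span_set_eq_card hB, hspan, finrank_span_eq_card hy]
  have hsub : Finset.univ.image u ⊆ B.toFinset := by
    intro x hx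
    obtain ⟨i, -, rfl⟩ := Finset.mem_image.1 hx
    rw [Set.mem_toFinset]
    exact hsB ⟨i, rfl⟩
  have hcu : (Finset.univ.image u).card = Fintype.card α := by
    rw [Finset.card_image_of_injective _ hu.injective, Finset.card_univ]
  have hle : Fintype.card α ≤ Fintype.card β := by
    rw [← hcard, ← hcu]; exact Finset.card_le_card hsub
  set R := B.toFinset \ Finset.univ.image u with hR
  have hRc : R.card = e := by
    rw [hR, Finset.card_sdiff_of_subset hsub, hcard, hcu, he]
  let en := R.equivFinOfCardEq hRc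
  have hmemR : ∀ k, (en.symm k : G) ∈ B ∧ (en.symm k : G) ∉ Set.range u := by
    intro k
    have this := Finset.mem_sdiff.1 (show ((en.symm k : R) : G) ∈
      B.toFinset \ Finset.univ.image u from (en.symm k).2)
    rw [Set.mem_toFinset] at this
    refine ⟨this.1, fun h => this.2 ?_⟩
    obtain ⟨i, hi⟩ := h
    exact Finset.mem_image.2 ⟨i, Finset.mem_univ _, hi⟩
  refine ⟨fun k => (en.symm k : G), ?_, ?_, hle⟩
  · intro k
    rcases hBt (hmemR k).1 with h | h
    · exact absurd h (hmemR k).2
    · exact h
  · let f : α ⊕ Fin e → B :=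
      Sum.elim (fun i => ⟨u i, hsB ⟨i, rfl⟩⟩) (fun k => ⟨(en.symm k : G), (hmemR k).1⟩)
    have hf : Function.Injective f := by
      rintro (i | k) (j | l) h
      · have := congrArg Subtype.val h
        exact congrArg Sum.inl (hu.injective this)
      · have := congrArg Subtype.val h
        exact absurd ⟨i, this⟩ (hmemR l).2
      · have := congrArg Subtype.val h
        exact absurd ⟨j, this.symm⟩ (hmemR k).2
      · have := congrArg Subtype.val h
        exact congrArg Sum.inr (en.symm.injective (Subtype.ext this))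
    have h2 : LinearIndependent F (fun x : B => (x : G)) := hB
    have h3 := h2.comp f hf
    convert h3 using 1
    funext x
    rcases x with i | k <;> rfl

/-! ## local lemmas about real germs and integral germs -/

section loc
variable {m : ℕ} (B : Base m) {L : ℕ → ℝ} (hL : Tendsto L atTop atTop)

lemma SR_mul' {s t : ℝ} {a b : HR} (ha : a ∈ SR L s) (hb : b ∈ SR L t) :
    a * b ∈ SR L (s + t) := by
  obtain ⟨a, rfl, ha⟩ := ha
  obtain ⟨b, rfl, hb⟩ := hb
  refine ⟨fun n => a n * b n, gr_mul a b, fun ε hε => ?_⟩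
  filter_upwards [ha (ε / 2) (by positivity), hb (ε / 2) (by positivity)] with n h1 h2
  rw [abs_mul]
  calc |a n| * |b n| ≤ Real.exp (-(s - ε / 2) * L n) * Real.exp (-(t - ε / 2) * L n) := by gcongr
    _ = Real.exp (-(s + t - ε) * L n) := by rw [← Real.exp_add]; ring_nf

include hL in
lemma SR_anti' {s t : ℝ} (hst : s ≤ t) {a : HR} (ha : a ∈ SR L t) : a ∈ SR L s := by
  obtain ⟨a, rfl, ha⟩ := ha
  refine ⟨a, rfl, fun ε hε => ?_⟩
  filter_upwards [ha ε hε, L_nonneg hL] with n h1 h2
  refine h1.trans (Real.exp_le_exp.2 ?_)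
  nlinarith

include hL in
lemma SR_KK (c : KK L hL) : rho (c : GG) ∈ SR L 0 := by
  have h := (pre_inf.filt hL).alg_mem c
  obtain ⟨a, ha, h⟩ := h
  refine ⟨fun n => (a n : ℝ), ?_, fun ε hε => ?_⟩
  · have e : ((c : KK L hL) : GG) = gm a := ha
    rw [e, rho_gm]
  · filter_upwards [h ε hε] with n hn
    exact hn

include hL in
lemma Sint_KK (c : KK L hL) {g : GG} (hg : Sint B L g) : Sint B L ((c : GG) * g) := by
  obtain ⟨t, a, rfl, ha⟩ := hg
  obtain ⟨_, u, d, hu, hd, hd0, rfl⟩ := c
  refine ⟨t, fun n => (u n : ℚ) / d n * a n, ?_, fun ε hε => ?_⟩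
  · rw [gm_mul]
  · filter_upwards [hd (ε / 2) (by positivity), hd0, ha (ε / 2) (by positivity), L_nonneg hL]
      with n h1 h2 h3 h4
    obtain ⟨d', c', k, hd', hd1, e, hk⟩ := h3
    refine ⟨d n * d', u n * c', k, mul_ne_zero h2 hd', ?_, ?_, ?_⟩
    · push_cast
      rw [abs_mul]
      calc |(d n : ℝ)| * |(d' : ℝ)| ≤ Real.exp (ε / 2 * L n) * Real.exp (ε / 2 * L n) := by
            gcongr
        _ = Real.exp (ε * L n) := by rw [← Real.exp_add]; ring_nf
    · have h2' : (d n : ℚ) ≠ 0 := by exact_mod_cast h2
      push_cast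
      calc (d n : ℚ) * d' * ((u n : ℚ) / d n * a n) = (u n : ℚ) * (d' * a n) := by
            field_simp
        _ = _ := by rw [e]; ring
    · intro i
      refine le_trans ?_ (hk i)
      nlinarith

include hL in
lemma Sv_KK (v : Fin m) (c : KK L hL) {g : GG} {t : ℝ} (hg : g ∈ Sv B L (some v) t) :
    (c : GG) * g ∈ Sv B L (some v) t := by
  have hf := (pre_b (B.two v) (Pool.Agent.TH932.Germs.cop (B.P v))).filt hL
  have h1 := hf.mul_mem (hf.alg_mem c) hg
  rw [zero_add] at h1
  exact h1

end loc

/-- germs which are independent over the rationals stay independent over a number field -/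
lemma lind_rho (hj : DisjStmt) (F : IntermediateField ℚ ℝ) [FiniteDimensional ℚ F]
    {α : Type*} [Fintype α] (y : α → GG) (hy : LinearIndependent ℚ y) :
    LinearIndependent F (fun p => rho (y p)) := by
  classical
  rw [Fintype.linearIndependent_iff]
  intro c hc
  set β := Module.finBasis ℚ F with hβ
  have hβi : LinearIndependent ℚ (fun k => ((β k : F) : ℝ)) :=
    β.linearIndependent.map' (F.val.toLinearMap) (LinearMap.ker_eq_bot.2 F.val.injective)
  have hrat : ∀ (q : ℚ) (h : HR), algebraMap ℝ HR (q : ℝ) * h = rho (q : GG) * h := by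
    intro q h
    rw [map_ratCast, map_ratCast]
  have h1 : ∑ k, algebraMap ℝ HR ((β k : F) : ℝ) * rho (∑ p, ((β.repr (c p) k : ℚ) : GG) * y p)
      = 0 := by
    rw [← hc]
    have h2 : ∀ p, (c p) • rho (y p) = ∑ k, algebraMap ℝ HR ((β k : F) : ℝ) *
        (rho ((β.repr (c p) k : ℚ) : GG) * rho (y p)) := by
      intro p
      have e1 : ((c p : F) : ℝ) = ∑ k, ((β.repr (c p) k : ℚ) : ℝ) * ((β k : F) : ℝ) := by
        have e2 : ((∑ k, β.repr (c p) k • β k : F) : ℝ) = (c p : ℝ) := by rw [β.sum_repr]
        rw [← e2]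
        simp [Algebra.smul_def]
      have e3 : (c p) • rho (y p) = algebraMap ℝ HR ((c p : F) : ℝ) * rho (y p) := by
        rw [Algebra.smul_def]
        rfl
      rw [e3, e1, map_sum, Finset.sum_mul]
      apply Finset.sum_congr rfl
      intro k _
      rw [map_mul, map_ratCast, map_ratCast]
      ring
    rw [Finset.sum_congr rfl fun p _ => h2 p, Finset.sum_comm]
    apply Finset.sum_congr rfl
    intro k _
    rw [map_sum, Finset.mul_sum]
    apply Finset.sum_congr rfl
    intro p _
    rw [map_mul]
  have h3 := hj (Fin (Module.finrank ℚ F)) inferInstance (fun k => ((β k : F) : ℝ)) hβi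
    (fun k => ∑ p, ((β.repr (c p) k : ℚ) : GG) * y p) h1
  intro p
  have h4 : β.repr (c p) = 0 := by
    ext k
    have h5 := Fintype.linearIndependent_iff.1 hy (fun p => β.repr (c p) k) (by
      rw [← h3 k]
      apply Finset.sum_congr rfl
      intro p _
      have e := map_ratCast_smul (AddMonoidHom.id GG) ℚ GG (β.repr (c p) k) (y p)
      simpa using e) p
    rw [h5]
    rfl
  exact β.repr.map_eq_zero_iff.1 h4

theorem mova (h : FixAStmt) (hd : DecStmt) (hj : DisjStmt) : MovAStmt := by
  classical
  intro m B L hL F hF ι _ x z w wI h1 h2 h3 h4 h5 h6 C h7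
  by_contra hσ
  push Not at hσ
  set A : ℝ := ∑ v, ∑ i, w v i with hA
  set A' : ℝ := ∑ i, wI i with hA'
  set σ := A + A' with hσdef
  -- the bound at the real place
  obtain ⟨C', hC', hCC⟩ : ∃ C' : ℝ, 0 ≤ C' ∧ C ≤ C' := ⟨max C 0, le_max_right _ _, le_max_left _ _⟩
  have h7' : ∀ i, rho (x i) ∈ SR L (-C') := fun i => SR_anti' hL (by linarith) (h7 i)
  -- coefficients
  choose c hc using h3
  set β := Module.finBasis ℚ F with hβ
  have h8 : ∀ i j, ∃ a : Fin (Module.finrank ℚ F) → KK L hL,
      (c i j : HR) = ∑ k, algebraMap ℝ HR ((β k : F) : ℝ) * rho (a k : GG) := fun i j =>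
    (hd L hL F hF _ inferInstance β (c i j : HR)).1 (c i j).2
  choose a ha using h8
  set M : ℝ := |A| + C' * Fintype.card ι with hM
  have hM0 : 0 ≤ M := by positivity
  obtain ⟨W, W', hWf, hWf', hWW, h1W, hmulW, hd0, hdd⟩ :=
    Pool.Agent.TH932.S2.Mov.exists_W
      (fun t : ι × ι × Fin (Module.finrank ℚ F) => a t.1 t.2.1 t.2.2)
      (σ / (2 * (M + 1))) (by positivity)
  set d := Module.finrank ℚ W with hd
  set d' := Module.finrank ℚ W' with hd'
  let bW := Module.finBasis ℚ W
  let bW' := Module.finBasis ℚ W'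
  have hb : LinearIndependent ℚ (fun s => (bW s : KK L hL)) :=
    bW.linearIndependent.map' W.subtype (Submodule.ker_subtype _)
  have hb' : LinearIndependent ℚ (fun s => (bW' s : KK L hL)) :=
    bW'.linearIndependent.map' W'.subtype (Submodule.ker_subtype _)
  have hspan' : ∀ x ∈ W', x ∈ Submodule.span ℚ (Set.range fun s => (bW' s : KK L hL)) := by
    intro x hx
    have e1 := bW'.span_eq
    have e2 : (⟨x, hx⟩ : W') ∈ Submodule.span ℚ (Set.range bW') := by rw [e1]; trivial
    have e3 := Submodule.mem_map_of_mem (f := W'.subtype) e2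
    rw [Submodule.map_span, ← Set.range_comp] at e3
    exact e3
  have hxK : LinearIndependent (KK L hL) x := by
    rw [Fintype.linearIndependent_iff]
    intro c hc
    apply h1 c
    rw [← hc]
    apply Finset.sum_congr rfl
    intro i _
    rfl
  have hzK : LinearIndependent (KA F hL) z := by
    rw [Fintype.linearIndependent_iff]
    intro c hc
    apply h2 c
    rw [← hc]
    apply Finset.sum_congr rfl
    intro i _
    rfl
  -- the big family
  let yG : Fin d' × ι → GG := fun p => (bW' p.1 : KK L hL) • x p.2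
  have hyG : LinearIndependent ℚ yG := linearIndependent_smul hb' hxK
  let y : Fin d' × ι → HR := fun p => rho (yG p)
  have hy : LinearIndependent F y := lind_rho hj F yG hyG
  -- the elements of the algebra
  have hmemA : ∀ s, rho ((bW s : KK L hL) : GG) ∈ KA F hL := fun s =>
    Algebra.subset_adjoin ⟨_, (bW s : KK L hL).2, rfl⟩
  let bA : Fin d → KA F hL := fun s => ⟨rho ((bW s : KK L hL) : GG), hmemA s⟩
  have hbG : LinearIndependent ℚ (fun s => ((bW s : KK L hL) : GG)) := by
    have e := hb.map' (Algebra.linearMap (KK L hL) GG |>.restrictScalars ℚ) (by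
      rw [LinearMap.ker_eq_bot]
      exact (algebraMap (KK L hL) GG).injective)
    exact e
  have hbA : LinearIndependent F bA := by
    have e := lind_rho hj F _ hbG
    exact LinearIndependent.of_comp (KA F hL).val.toLinearMap e
  let u : Fin d × ι → HR := fun p => bA p.1 • z p.2
  have hu : LinearIndependent F u := linearIndependent_smul hbA hzK
  have hmem : ∀ g ∈ W', ∀ j, rho ((g : GG) * x j) ∈ Submodule.span F (Set.range y) := by
    intro g hg0 j
    have hg1 := hspan' g hg0
    clear hg0
    induction hg1 using Submodule.span_induction with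
    | mem x hx =>
      obtain ⟨s, rfl⟩ := hx
      exact Submodule.subset_span ⟨(s, j), rfl⟩
    | zero => simp
    | add x y _ _ hx hy =>
      have e : (((x + y : KK L hL) : GG)) = (x : GG) + (y : GG) := rfl
      rw [e, add_mul, map_add]; exact Submodule.add_mem _ hx hy
    | smul q x _ hx =>
      have e : (((q • x : KK L hL) : GG)) = (q : GG) * (x : GG) := by
        rw [Algebra.smul_def]; rfl
      have e2 : rho ((q : GG)) = algebraMap F HR (q : F) := by
        rw [map_ratCast, map_ratCast]
      rw [e, mul_assoc, map_mul, e2, ← Algebra.smul_def]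
      exact Submodule.smul_mem _ _ hx
  have hum : ∀ p, u p ∈ Submodule.span F (Set.range y) := by
    rintro ⟨s, i⟩
    have e0 : u (s, i) = rho ((bW s : KK L hL) : GG) * z i := rfl
    rw [e0, hc i, Finset.mul_sum]
    apply Submodule.sum_mem
    intro j _
    rw [ha i j, Finset.sum_mul, Finset.mul_sum]
    apply Submodule.sum_mem
    intro k _
    have e1 : rho ((bW s : KK L hL) : GG) * (algebraMap ℝ HR ((β k : F) : ℝ) *
        rho (a i j k : GG) * rho (x j)) =
        (β k : F) • rho (((a i j k * (bW s : KK L hL) : KK L hL) : GG) * x j) := by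
      have e2 : (((a i j k * (bW s : KK L hL) : KK L hL)) : GG) =
        (a i j k : GG) * ((bW s : KK L hL) : GG) := rfl
      have e3 : ∀ g : HR, (β k : F) • g = algebraMap ℝ HR ((β k : F) : ℝ) * g := by
        intro g
        rw [Algebra.smul_def]; rfl
      rw [e2, e3, map_mul, map_mul]
      ring
    rw [e1]
    apply Submodule.smul_mem
    exact hmem _ (hmulW (i, j, k) _ (bW s).2) j
  obtain ⟨e, he⟩ : ∃ e, e = Fintype.card (Fin d' × ι) - Fintype.card (Fin d × ι) := ⟨_, rfl⟩
  obtain ⟨g, hg1, hg2, hg4⟩ := extendF u y hu hy hum e he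
  set n := Fintype.card (Fin d' × ι) with hn
  let E1 : Fin n ≃ Fin d' × ι := (Fintype.equivFin _).symm
  let E2 : Fin n ≃ (Fin d × ι) ⊕ Fin e := (Fintype.equivFinOfCardEq (by
    rw [Fintype.card_sum, Fintype.card_fin, he]; omega)).symm
  have key := h m B L hL F hF n (fun i => yG (E1 i)) (fun i => Sum.elim u g (E2 i))
    (fun v i => w v (E1 i).2) (fun i => Sum.elim (fun p : Fin d × ι => wI p.2) (fun _ => -C') (E2 i))
    ?_ ?_ ?_ ?_ ?_ ?_
  · -- conclusion
    have e1 : ∀ v, ∑ i, w v (E1 i).2 = d' * ∑ i, w v i := by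
      intro v
      rw [E1.sum_comp (fun p => w v p.2), Fintype.sum_prod_type]
      simp
    have e2 : ∑ i, Sum.elim (fun p : Fin d × ι => wI p.2) (fun _ : Fin e => -C') (E2 i)
        = d * A' - e * C' := by
      rw [E2.sum_comp (fun p => Sum.elim (fun p : Fin d × ι => wI p.2) (fun _ : Fin e => -C') p),
        Fintype.sum_sum_type]
      simp only [Sum.elim_inl, Sum.elim_inr]
      rw [Fintype.sum_prod_type]
      simp
      ring
    rw [Finset.sum_congr rfl fun v _ => e1 v, ← Finset.mul_sum, e2, ← hA] at key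
    have e3 : (e : ℝ) = (d' - d) * Fintype.card ι := by
      rw [he, hn, Nat.cast_sub (hn ▸ hg4)]
      simp
      ring
    rw [e3] at key
    have hdpos : (0 : ℝ) < d := by exact_mod_cast hd0
    have e4 : (d' : ℝ) - d ≤ σ / (2 * (M + 1)) * d := by linarith
    have hdd' : (d : ℝ) ≤ d' := by
      have := Submodule.finrank_mono hWW
      exact_mod_cast this
    have e5 : (d : ℝ) * σ ≤ M * (d' - d) := by
      have e6 : -(|A| * ((d' : ℝ) - d)) ≤ A * (d' - d) := by
        have := neg_abs_le A
        nlinarith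
      rw [hM, hσdef]
      nlinarith
    have e6 : (d : ℝ) * σ ≤ M * (σ / (2 * (M + 1)) * d) := e5.trans (by gcongr)
    have e7 : M * (σ / (2 * (M + 1)) * d) = (d * σ) * (M / (2 * (M + 1))) := by
      field_simp
    rw [e7] at e6
    have e8 : M / (2 * (M + 1)) < 1 := by
      rw [div_lt_one (by positivity)]; linarith
    have e9 : 0 < (d : ℝ) * σ := by positivity
    nlinarith
  · intro c hc
    have e1 : ∑ p, ((c (E1.symm p) : ℤ) : ℚ) • yG p = 0 := by
      rw [← hc, ← E1.sum_comp]
      apply Finset.sum_congr rfl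
      intro i _
      rw [E1.symm_apply_apply, Int.cast_smul_eq_zsmul, zsmul_eq_mul]
    have := Fintype.linearIndependent_iff.1 hyG (fun p => ((c (E1.symm p) : ℤ) : ℚ)) e1
    intro i
    have h9 := this (E1 i)
    rw [E1.symm_apply_apply] at h9
    exact_mod_cast h9
  · exact hg2.comp E2 E2.injective
  · intro i
    have e1 : Set.range (fun j => rho (yG (E1 j))) = Set.range y := by
      exact E1.surjective.range_comp y
    rw [e1]
    rcases hE : E2 i with p | k
    · exact hum p
    · obtain ⟨q, hq⟩ := hg1 k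
      change g k ∈ _
      rw [← hq]
      exact Submodule.subset_span ⟨q, rfl⟩
  · intro v i
    exact Sv_KK B hL v _ (h4 v _)
  · intro i
    rcases hE : E2 i with p | k
    · change rho ((bW p.1 : KK L hL) : GG) * z p.2 ∈ SR L (wI p.2)
      have := SR_mul' (SR_KK hL (bW p.1 : KK L hL)) (h5 p.2)
      rwa [zero_add] at this
    · obtain ⟨q, hq⟩ := hg1 k
      change g k ∈ SR L (-C')
      rw [← hq]
      change rho (((bW' q.1 : KK L hL) : GG) * x q.2) ∈ _
      rw [map_mul]
      have := SR_mul' (SR_KK hL (bW' q.1 : KK L hL)) (h7' q.2)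
      rwa [zero_add] at this
  · intro i
    exact Sint_KK B hL _ (h6 _)

end Pool.Agent.TH656.AL
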